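import Pool.Agent.Run7.h768.AP.Fin

/-!
# Polynomial projection is `∃ℝ`-hard for every fixed polynomial `f`

Let `p` be a nonconstant polynomial in `y₁, …, y_k`, let `Q(z)` be a sum of squares of quadratic
polynomials which has a real zero if and only if a given sentence of the existential theory of the
reals is true, let `Q(t, z)` be its homogenization, a form of degree `4`, and let
`g = p(y) ± ∑ yᵢ^(2s) Q(yᵢ, zⁱ)` with `2s + 4 > deg p` and with separate variables `zⁱ` for every
`i`. If `Q(v) = 0`, then `p(x) = g(x, x₁ v, …, x_k v)`. Conversely let `p(x) = g(Ax + b)`. Comparing
the terms of degree `2s + 4` on lines shows that the form vanishes on the image of `A`, so `Q` has a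
zero if some coordinate `yᵢ` is not constant on the image of `x ↦ Ax + b`. If all of them are
constant, then at a point `x` whose first coordinates are these constants the form vanishes again,
so that `Q` has a zero or the constants are zero; in the latter case `p(x) - p(0)` has the sign
which is excluded by the choice of `±`.
-/

namespace Pool.Agent.Results.MP_ca1301_lc.EveryFixedSource

open Pool.Agent.NPC Pool.Agent.NPC.H612 Pool.Agent.NPC.H768AP

/-- For every polynomial `p` with integer coefficients in `k` variables, the affine polynomial
projection problem is `∃ℝ`-hard, already for the instances `(n, f, g)` in which `f` is the fixed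
polynomial `p` (in the first `k` of the `n` variables), `g` has degree at most
`max 4 (deg p + 2)` and, if `p` is not constant, `f(x) = g(Ax + b)` is solvable only if
`f(x) = g(Ax)` is solvable. -/
theorem result (k : ℕ) (p : MvPolynomial (Fin k) ℤ) :
    ERHardWithin (FixedSource p) AffineProjection :=
  hard k p

end Pool.Agent.Results.MP_ca1301_lc.EveryFixedSource
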